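import Pool.Agent.H65.GC.Twist

/-!
# Relations for products and sums of defects
-/

noncomputable section

namespace GD

open Complex Module

variable {V : Type} [AddCommGroup V] [Module ℚ V] {cls : ℂ → V} {N : ℕ} [NeZero N]
  {ι : Type} [Fintype ι] (m : ι → ℤ) {S : ι → Str} {U : ∀ i, (ZMod N)ˣ → Submodule ℂ (S i).W}

/-- The sum of the types of a family. -/
theorem fam_exists_eps (hΓ : GammaSpec V cls) (hN : 3 ≤ N) (hU : ∀ i, IsPiece N (S i) (U i)) :
    ∃ ε : ZMod N → ℚ, ∀ l : (ZMod N)ˣ, tsum' N (fun x => x) ε l =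
      ∑ i, (m i : ℚ) * (spaceType (S i) (U i l) : ℚ) := by
  choose εi hεi using fun i => (hU i).exists_eps hΓ hN
  refine ⟨fun b => ∑ i, (m i : ℚ) * εi i b, fun l => ?_⟩
  rw [tsum_sum (ε := fun i b => (m i : ℚ) * εi i b)]
  refine Finset.sum_congr rfl fun i _ => ?_
  rw [tsum_mul_left, hεi, smul_eq_mul]

/-- The sum of the defects. -/
theorem fam_defect (hΓ : GammaSpec V cls) (hN : 3 ≤ N) (hU : ∀ i, IsPiece N (S i) (U i))
    {ε : ZMod N → ℚ} (hε : ∀ l : (ZMod N)ˣ, tsum' N (fun x => x) ε l =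
      ∑ i, (m i : ℚ) * (spaceType (S i) (U i l) : ℚ))
    (l : (ZMod N)ˣ) {z : ι → ℂ} (hz : ∀ i, IsSpacePeriod (S i) (U i l) (z i)) :
    (∑ i, m i • defect cls N (S i) (U i)) l =
      cls (∏ i, z i ^ m i) - cls ((gammaProd N ε l : ℝ) : ℂ) := by
  choose εi hεi using fun i => (hU i).exists_eps hΓ hN
  have hz0 : ∀ i ∈ Finset.univ, z i ^ m i ≠ 0 := fun i _ => zpow_ne_zero _ (hz i).trace.1
  have h2 : ∀ i ∈ Finset.univ, (m i • defect cls N (S i) (U i)) l =
      cls (z i ^ m i) - tsum' N (gam cls) (fun b => (m i : ℚ) * εi i b) l := by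
    intro i _
    rw [Pi.smul_apply, defect_eq (hU i), gVal_eq hΓ (hεi i), uVal_eq hΓ (hz i), smul_sub,
      tsum_mul_left, cls_zpow hΓ (hz i).trace.1, ← Int.cast_smul_eq_zsmul ℚ,
      ← Int.cast_smul_eq_zsmul ℚ (m i) (tsum' N (gam cls) (εi i) l)]
  rw [Finset.sum_apply, Finset.sum_congr rfl h2, Finset.sum_sub_distrib, cls_prod hΓ _ _ hz0,
    cls_gammaProd hΓ, ← tsum_sum (ε := fun i b => (m i : ℚ) * εi i b)]
  congr 1
  apply ko' hΓ
  intro l
  rw [hε, tsum_sum (ε := fun i b => (m i : ℚ) * εi i b)]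
  refine Finset.sum_congr rfl fun i _ => ?_
  rw [tsum_mul_left, hεi, smul_eq_mul]

/-- The relation for products of determinants of periods. -/
theorem fam_iff (hΓ : GammaSpec V cls) (hN : 3 ≤ N) (hU : ∀ i, IsPiece N (S i) (U i)) :
    (∀ ε : ZMod N → ℚ, (∀ l : (ZMod N)ˣ,
        (N : ℚ) * ∑ i, (m i : ℚ) * (spaceType (S i) (U i l) : ℚ) =
          ∑ a ∈ Finset.univ.erase (0 : ZMod N), ε a * (((l : ZMod N) * a).val : ℚ)) →
      ∀ (l : (ZMod N)ˣ) (z : ι → ℂ), (∀ i, IsSpacePeriod (S i) (U i l) (z i)) →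
        Sim (∏ i, z i ^ m i) (gammaProd N ε l)) ↔
    ∑ i, m i • defect cls N (S i) (U i) = 0 := by
  have hN0 : (N : ℚ) ≠ 0 := by exact_mod_cast NeZero.ne N
  constructor
  · intro h
    obtain ⟨ε, hε⟩ := fam_exists_eps m hΓ hN hU
    funext l
    choose z hz using fun i => gc_exists_period ((hU i).betti l) ((hU i).deRham l)
    have h1 := h ε (fun l => by rw [sum_erase, ← tsum_id, hε]) l z hz
    rw [fam_defect m hΓ hN hU hε l hz, cls_of_sim hΓ h1, sub_self]
    rfl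
  · intro h ε hε l z hz
    have hε' : ∀ l : (ZMod N)ˣ, tsum' N (fun x => x) ε l =
        ∑ i, (m i : ℚ) * (spaceType (S i) (U i l) : ℚ) := by
      intro l
      have h1 := hε l
      rw [sum_erase, ← tsum_id] at h1
      exact (mul_left_cancel₀ hN0 h1).symm
    have h1 := fam_defect m hΓ hN hU hε' l hz
    rw [h, Pi.zero_apply] at h1
    exact sim_of_cls hΓ (Finset.prod_ne_zero_iff.2 fun i _ => zpow_ne_zero _ (hz i).trace.1)
      (gammaProd_ne _ _ _) (sub_eq_zero.1 h1.symm)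

end GD
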