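import Pool.Agent.H95.AP.Num
import Pool.Agent.H65.AP.Fam

/-!
# Symmetric endomorphisms and combinations of automorphisms
-/

noncomputable section

namespace GD

open Complex Module NumberField

section sym

variable {S : Str} {N : ℕ} [NeZero N] {δ : Derivation Qbar ℂ ℂ} {c : (ZMod N)ˣ → ℂ}

/-- The trace of a natural operator times a symmetric endomorphism. -/
theorem trace_symm {T : (R : Str) → Module.End ℂ R.W} (hT : IsNat T) (P : Pol S)
    {z : Module.End ℂ S.W} (hs : ∀ x y, P.E (z x) y = P.E x (z y)) :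
    LinearMap.trace ℂ S.W (T S * z) =
      ((S.wt : ℚ) / 2 : ℚ) * DT.cc T * LinearMap.trace ℂ S.W z := by
  have hinj : Function.Injective P.E := by
    rw [← LinearMap.ker_eq_bot, LinearMap.ker_eq_bot']
    intro x hx
    refine pol_nondeg P (isSub_top (S := S)) (x := x) ?_ fun y _ => ?_
    · rw [Str.cx_B]
      exact Submodule.mem_top
    · rw [hx]
      rfl
  let Ψ : S.W ≃ₗ[ℂ] Module.Dual ℂ S.W :=
    LinearMap.linearEquivOfInjective P.E hinj (Subspace.dual_finrank_eq).symm
  have hΨ : ∀ x, Ψ x = P.E x := fun _ => rfl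
  let k : ℂ := S.wt * DT.cc T
  have key : Ψ.conj (T S * z) = Module.Dual.transpose (R := ℂ) (k • z - z * T S) := by
    apply LinearMap.ext
    intro f
    obtain ⟨x, rfl⟩ := Ψ.surjective f
    rw [LinearEquiv.conj_apply_apply, LinearEquiv.symm_apply_apply]
    apply LinearMap.ext
    intro y
    rw [hΨ, hΨ, Module.Dual.transpose_apply, LinearMap.comp_apply]
    have h1 := DT.pol_der hT P (z x) y
    have h2 : (k • z - z * T S) y = k • z y - z (T S y) := rfl
    have h3 : (T S * z) x = T S (z x) := rfl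
    rw [h2, h3, map_sub, map_smul, smul_eq_mul, ← hs, ← hs]
    linear_combination h1
  have h1 : LinearMap.trace ℂ S.W (T S * z) =
      k * LinearMap.trace ℂ S.W z - LinearMap.trace ℂ S.W (T S * z) := by
    conv_lhs => rw [← LinearMap.trace_conj' (T S * z) Ψ, key]
    rw [LinearMap.trace_transpose', map_sub, map_smul, smul_eq_mul, LinearMap.trace_mul_comm]
  have h2 : ((((S.wt : ℚ) / 2 : ℚ)) : ℂ) = (S.wt : ℂ) / 2 := by push_cast; rfl
  rw [h2]
  linear_combination h1 / 2

/-- Symmetric endomorphisms are good. -/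
theorem good_self (hN : 3 ≤ N) (hc : GA.IsCoef δ N c) (P : Pol S) {z : Module.End ℂ S.W}
    (hz : IsHom S S z) (hs : ∀ x y, P.E (z x) y = P.E x (z y)) : GA.Good S N δ c z := by
  obtain ⟨q, hq⟩ := GA.trace_ratW hz.betti
  have h1 := trace_symm DT.isNat_hOp P hs
  have h2 := trace_symm (isNat_A δ) P hs
  rw [DT.cc_hOp, hq] at h1
  rw [cc_A, hq] at h2
  refine ⟨(((S.wt : ℚ) / 2 * q : ℚ) : cyc N), ?_, ?_⟩
  · rw [h1, mul_one, ← Rat.cast_mul]
    rfl
  · rw [h2]
    have h3 : ∀ l : (ZMod N)ˣ, ((sAut N l⁻¹ (((S.wt : ℚ) / 2 * q : ℚ) : cyc N) : cyc N) : ℂ) =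
        (((S.wt : ℚ) / 2 * q : ℚ) : ℂ) := by
      intro l
      rw [map_ratCast]
      rfl
    simp only [h3]
    rw [← Finset.sum_mul, GA.sum_coef δ N hN hc, GA.cpi_eq]
    push_cast
    ring

theorem good_sym (hN : 3 ≤ N) (hc : GA.IsCoef δ N c) {z : Module.End ℂ S.W}
    (hz : z ∈ symOps S) : GA.Good S N δ c z := by
  induction hz using Submodule.span_induction with
  | mem z hz =>
    obtain ⟨h1, P, h2⟩ := hz
    exact good_self hN hc P h1 h2
  | zero => exact GA.good_zero
  | add x y _ _ hx hy => exact GA.good_add hx hy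
  | smul q x _ hx =>
    rw [ratC_smul]
    exact GA.good_smul q hx

/-- Symmetric endomorphisms are good. -/
theorem symGood : SymGood := fun _ _ _ hz _ _ hD _ _ hc => good_sym hD hc hz

/-- Combinations of automorphisms of finite order and symmetric endomorphisms are good on a
substructure generated by settled structures. -/
theorem good_near (P : Pol S) {M : Submodule ℚ S.W} (hM : IsSub S M)
    (hG : Gen Settled (subStr S M hM))
    (hst : ∀ f, IsHom S S f → ∀ x ∈ S.cx M, f x ∈ S.cx M) {y z : Module.End ℂ S.W}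
    (hy : y ∈ Submodule.span ℚ (finAut S)) (hz : z ∈ symOps S) :
    ∃ m, 0 < m ∧ ∀ (D : ℕ) [NeZero D], m ∣ D → 3 ≤ D → ∀ δ c, GA.IsCoef δ D c →
      ∀ h : ∀ x ∈ S.cx M, (y + z) x ∈ S.cx M,
        GA.Good (subStr S M hM) D δ c (subEnd S M hM (y + z) h) := by
  obtain ⟨m, hm, hg⟩ := good_settled hM P hG hst hy
  have hyh : IsHom S S y := GA.isHom_of_span (fun _ h => h.1) hy
  refine ⟨m, hm, fun D _ hmD hD δ c hc h => ?_⟩
  have h1 := hg D hmD hD δ c hc (hst y hyh)
  have h2 := good_sym hD hc (sym_sub hM hst hz (hst z (isHom_sym hz)))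
  have h3 : subEnd S M hM (y + z) h =
      subEnd S M hM y (hst y hyh) + subEnd S M hM z (hst z (isHom_sym hz)) := by
    apply LinearMap.ext
    intro x
    exact Subtype.ext rfl
  rw [h3]
  exact GA.good_add h1 h2

/-- A combination of automorphisms of finite order which vanishes modulo symmetric endomorphisms
and modulo the settled part is good. -/
theorem good_of_near (P : Pol S) {y : Module.End ℂ S.W} (hy : y ∈ Submodule.span ℚ (finAut S))
    (h : Near S y 0) : ∃ m, 0 < m ∧ ∀ (D : ℕ) [NeZero D], m ∣ D → 3 ≤ D → ∀ δ c,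
      GA.IsCoef δ D c → GA.Good S D δ c y := by
  obtain ⟨z, hz, hx⟩ := h
  obtain ⟨M, hM, hcx, hG⟩ := exists_part Settled S
  have hst : ∀ f, IsHom S S f → ∀ x ∈ S.cx M, f x ∈ S.cx M := by
    intro f hf
    rw [hcx]
    exact fun x hx => setPart_stable hf hx
  obtain ⟨m, hm, hg⟩ := good_near P hM hG hst hy ((symOps S).neg_mem hz)
  refine ⟨m, hm, fun D _ hmD hD δ c hc => ?_⟩
  have h1 : ∀ x, (y + -z) x ∈ S.cx M := by
    intro x
    have h2 := hx x
    rw [LinearMap.zero_apply, sub_zero] at h2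
    rw [hcx, LinearMap.add_apply, LinearMap.neg_apply, ← sub_eq_add_neg]
    exact h2
  have h2 := good_of_part hM h1 (hg D hmD hD δ c hc fun x _ => h1 x)
  have h3 := GA.good_add h2 (good_sym hD hc hz)
  rwa [neg_add_cancel_right] at h3

end sym

namespace Family

variable (X : Family)

/-- The deviation of a member. -/
def dv (N : ℕ) [NeZero N] (δ : Derivation Qbar ℂ ℂ) (c : X.G →₀ ℚ) (i : X.ι) : ℂ :=
  ∑ g ∈ c.support, (c g : ℂ) * ∑ j : ZMod N, zeta N ^ j.val *
    lam δ (X.dft Pool.Agent.H11.GD.cls N g j i 1)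

variable {N : ℕ} [NeZero N] {δ : Derivation Qbar ℂ ℂ} {c' : (ZMod N)ˣ → ℂ}

theorem hasDef_op (hN : 3 ≤ N) (hc' : GA.IsCoef δ N c') {c : X.G →₀ ℚ}
    (hc : ∀ g ∈ c.support, g ^ N = 1) (i : X.ι) :
    HasDef (X.S i) N δ c' (X.op c i) (X.dv N δ c i) :=
  HasDef.sum c.support (x := fun g => X.act i g) (q := fun g => c g) fun g hg =>
    hasDef_aut (X.pol i).some hN hc' (X.hom i g) (X.act_pow' (hc g hg) i)

/-- The sum of the deviations. -/
theorem dv_sum (hR : X.Rel) (hN : 3 ≤ N) {c : X.G →₀ ℚ} (hc : ∀ g ∈ c.support, g ^ N = 1) :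
    ∑ i, X.m i • X.dv N δ c i = 0 := by
  have h1 : ∀ g ∈ c.support, ∀ j : ZMod N,
      ∑ i, X.m i • lam δ (X.dft Pool.Agent.H11.GD.cls N g j i 1) = 0 := by
    intro g hg j
    have h2 := congrFun ((X.rel_iff gammaSpec).1 hR g N hN (hc g hg) j) 1
    rw [Finset.sum_apply] at h2
    have h3 := congrArg (lam δ) h2
    rw [map_sum, Pi.zero_apply, map_zero] at h3
    rw [← h3]
    refine Finset.sum_congr rfl fun i _ => ?_
    rw [Pi.smul_apply, map_zsmul]
  simp only [dv, Finset.smul_sum, ← mul_smul_comm]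
  rw [Finset.sum_comm]
  refine Finset.sum_eq_zero fun g hg => ?_
  rw [← Finset.mul_sum, Finset.sum_comm]
  refine mul_eq_zero_of_right _ (Finset.sum_eq_zero fun j _ => ?_)
  rw [← Finset.mul_sum, h1 g hg j, mul_zero]

end Family

/-- The group ring elements which are trivial on the other members are good. -/
theorem goodOp : GoodOp := by
  classical
  intro X hR c hc n hz
  have h1 : ∀ i, ∃ m, 0 < m ∧ (i ≠ n → ∀ (D : ℕ) [NeZero D], m ∣ D → 3 ≤ D →
      ∀ δ c', GA.IsCoef δ D c' → GA.Good (X.S i) D δ c' (X.op c i)) := by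
    intro i
    by_cases hi : i ≠ n
    · obtain ⟨m, hm, h⟩ := good_of_near (X.pol i).some (X.op_mem hc i) (hz i hi)
      exact ⟨m, hm, fun _ => h⟩
    · exact ⟨1, one_pos, fun h2 => absurd h2 hi⟩
  choose m hm hgood using h1
  refine ⟨(∏ i, m i) * ∏ g ∈ c.support, orderOf g,
    Nat.mul_pos (Finset.prod_pos fun i _ => hm i)
      (Finset.prod_pos fun g hg => (hc g hg).orderOf_pos), ?_⟩
  intro D _ hmD hD δ c' hc'
  have hcD : ∀ g ∈ c.support, g ^ D = 1 := fun g hg => orderOf_dvd_iff_pow_eq_one.1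
    (((Finset.dvd_prod_of_mem orderOf hg).trans (Dvd.intro_left _ rfl)).trans hmD)
  have h2 : ∀ i, i ≠ n → X.dv D δ c i = 0 := by
    intro i hin
    obtain ⟨t, h3, h4⟩ := hgood i hin D (((Finset.dvd_prod_of_mem m
      (Finset.mem_univ i)).trans (Dvd.intro _ rfl)).trans hmD) hD δ c' hc'
    exact (X.hasDef_op hD hc' hcD i).unique ⟨t, h3, by rw [h4, zero_add]⟩
  have h3 := X.hasDef_op hD hc' hcD n
  have h4 := X.dv_sum (δ := δ) hR hD hcD
  rw [Finset.sum_eq_single n (fun i _ hin => by rw [h2 i hin, smul_zero])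
    (fun h => absurd (Finset.mem_univ n) h)] at h4
  rw [(smul_eq_zero.1 h4).resolve_left (X.m_ne n)] at h3
  exact h3.good

end GD
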