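import Pool.Agent.H75.AP.Alt
import Pool.Agent.H75.GA.Lev

/-!
# The relation for a family in terms of defects
-/

noncomputable section

namespace GD

open Complex Module

variable {V : Type} [AddCommGroup V] [Module ℚ V] {cls : ℂ → V} {N : ℕ} [NeZero N]

namespace Family

variable (X : Family)

theorem act_pow' {g : X.G} {M : ℕ} (hg : g ^ M = 1) (i : X.ι) : X.act i g ^ M = 1 := by
  rw [← map_pow, hg, map_one]

theorem isPiece {g : X.G} (hg : g ^ N = 1) (a : ZMod N) (i : X.ι) :
    IsPiece N (X.S i) (eigPiece N (X.S i) (X.act i g) a) :=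
  isPiece_eig (X.pol i) (X.hom i g) (X.act_pow' hg i) a

/-- The defect of a member. -/
def dft (cls : ℂ → V) (N : ℕ) [NeZero N] (g : X.G) (a : ZMod N) (i : X.ι) : (ZMod N)ˣ → V :=
  defect cls N (X.S i) (eigPiece N (X.S i) (X.act i g) a)

/-- The relation in terms of defects. -/
theorem rel_iff (hΓ : GammaSpec V cls) : X.Rel ↔
    ∀ (g : X.G) (N : ℕ) [NeZero N], 3 ≤ N → g ^ N = 1 → ∀ a : ZMod N,
      ∑ i, X.m i • X.dft cls N g a i = 0 := by
  constructor
  · intro h g N _ hN hg a
    exact (fam_iff X.m hΓ hN (fun i => X.isPiece hg a i)).1 fun ε hε l z hz =>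
      h g N hN hg a ε hε l z hz
  · intro h g N _ hN hg a ε hε l z hz
    exact (fam_iff X.m hΓ hN (fun i => X.isPiece hg a i)).2 (h g N hN hg a) ε hε l z hz

/-- If all members are settled, the relation holds. -/
theorem rel_of_settled (h : ∀ i, Settled (X.S i)) : X.Rel := by
  rw [X.rel_iff gammaSpec]
  intro g N _ hN hg a
  refine Finset.sum_eq_zero fun i _ => ?_
  have h1 : X.dft Pool.Agent.H11.GD.cls N g a i = 0 :=
    (relPiece_iff gammaSpec hN (X.isPiece hg a i)).1
      (GA.rel_eigPiece (C := fun T => T = X.S i) (Gen.base _ rfl) (X.pol i).some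
        (fun F _ _ e he => (h i).2 F e he) (X.hom i g) (X.act_pow' hg i) a)
  rw [h1, smul_zero]

end Family

end GD
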